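import Pool.Agent.helper42.FGL.Spec
import Pool.Agent.helper24.FGL.Spec
import Pool.Agent.helper82.FGB.Spec

/-! # fg:DOMX (MP_70a088_an, FIRST STEP, PART L): the domain, assembly of disc and band (helper82) -/

set_option autoImplicit false

open Complex Metric Set Filter Topology MeasureTheory
open RTB
open RTD (it dit gd)

noncomputable section

namespace FGL

theorem DOMX_mono {f : RM} {q N : ℕ} {jj : ℕ → ℕ} {kap A A' : ℝ} {sz : ℂ → ℝ} {D : ℕ → Set ℂ} (h : DOM f q N jj kap A sz D) (hA : A ≤ A') : DOM f q N jj kap A' sz D := by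
  obtain ⟨M, Q, s, hM, hQ, hz⟩ := h.co
  exact { h with
    A1 := h.A1.trans hA
    co := ⟨M, Q, s, hM, fun k hk => ⟨(hQ k hk).1, (hQ k hk).2.1, (hQ k hk).2.2.trans (ENNReal.ofReal_le_ofReal (mul_le_mul_of_nonneg_right hA (sq_nonneg _)))⟩, hz⟩ }

theorem DOMX (hOUTR : P2LR.OUTR_stmt) (hCELY : P2LR.CELY_stmt) (hDMD : DMD_stmt) (hBND : FGB.BND_stmt) (hCEL : LADR.CEL_stmt) : DOMX_stmt := by
  intro f hf κ₀ kap hκ₀ hk0 hk1
  obtain ⟨K, hK⟩ := hCEL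
  have hK1 : 1 ≤ K := by linarith [hK.1]
  obtain ⟨c₁, A₁, e₁, hc₁, hc₁', hA₁, he₁, N₀, hB⟩ := hBND K hK f hf kap hk0 hk1
  obtain ⟨Lam, hLam, hO⟩ := hOUTR f hf κ₀ 1 K (max N₀ 1) hκ₀ le_rfl hK1 (le_max_right _ _)
  obtain ⟨δ, hδ, hD⟩ := hDMD Lam kap hLam hk0 hk1
  obtain ⟨e, ε₁, he, heδ, hε₁, hO'⟩ := hO δ e₁ hδ he₁
  obtain ⟨A₂, hA₂, hD'⟩ := hD e he heδ
  obtain ⟨c₂, ε₂, hc₂, hc₂', hε₂, hC⟩ := hCELY κ₀ hκ₀
  refine ⟨min (c₁ * κ₀) (min c₂ (1 / 2)), max A₁ A₂, min ε₁ ε₂, by positivity, (min_le_right _ _).trans (min_le_right _ _), hA₁.trans (le_max_left _ _), lt_min hε₁ hε₂, ?_⟩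
  intro q y r₀ hq hr₀ hNR hFAR
  have hNR1 : P2LR.NR f q y r₀ ε₁ := ⟨hNR.1, hNR.2.1, fun z hz => (hNR.2.2 z hz).trans (mul_le_mul_of_nonneg_right (min_le_left _ _) hr₀.le)⟩
  have hNR2 : P2LR.NR f q y r₀ ε₂ := ⟨hNR.1, hNR.2.1, fun z hz => (hNR.2.2 z hz).trans (mul_le_mul_of_nonneg_right (min_le_right _ _) hr₀.le)⟩
  have hc0 : min (c₁ * κ₀) (min c₂ (1 / 2)) * r₀ ≤ c₁ * κ₀ * r₀ := mul_le_mul_of_nonneg_right (min_le_left _ _) hr₀.le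
  have hc2 : min (c₁ * κ₀) (min c₂ (1 / 2)) * r₀ ≤ c₂ * r₀ := mul_le_mul_of_nonneg_right ((min_le_right _ _).trans (min_le_left _ _)) hr₀.le
  have hc3 : min (c₁ * κ₀) (min c₂ (1 / 2)) * r₀ ≤ 1 * r₀ := mul_le_mul_of_nonneg_right (((min_le_right _ _).trans (min_le_right _ _)).trans (by norm_num)) hr₀.le
  have hdis : ∀ i j : ℕ, i < j → j < q → Disjoint (it f i '' ball y (min (c₁ * κ₀) (min c₂ (1 / 2)) * r₀)) (it f j '' ball y (min (c₁ * κ₀) (min c₂ (1 / 2)) * r₀)) := by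
    intro i j hij hj
    exact (hC f q y r₀ hr₀ hNR2 hFAR i (by omega) j hj (by omega)).mono (image_mono (ball_subset_ball hc2)) (image_mono (ball_subset_ball hc2))
  rcases hO' q y r₀ hq hr₀ hNR1 hFAR with ⟨p, ρ, t, hρ, ht1, ht2, -, -, hsub, hNI, -, hring⟩ | ⟨a, ha, hGP, hN, -⟩
  · obtain ⟨sz, D, hDOM, hD7⟩ := hD' f q p ρ t hq hρ ht1 ht2 hNI.1 hNI.2.2 hring
    exact ⟨1, fun _ => 0, sz, D, DOMX_mono hDOM (le_max_right _ _), ((ball_subset_ball hc3).trans hsub).trans hD7, hdis⟩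
  · obtain ⟨⟨sz, D, hDOM, hD7⟩, -⟩ := hB q a y e₁ hGP le_rfl ((le_max_left _ _).trans hN)
    refine ⟨P2Z.nt q a, _, sz, D, DOMX_mono hDOM (le_max_left _ _), ?_, hdis⟩
    refine (ball_subset_ball ?_).trans hD7
    refine hc0.trans ?_
    rw [mul_assoc]
    exact mul_le_mul_of_nonneg_left ha hc₁.le

end FGL
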